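import Pool.Agent.C4F.StmtsP

set_option autoImplicit false

namespace Pool.Agent.C4F.H90

open Pool.Agent.C4F

/-- the pattern graph on the kinds -/
def T (a b : ℕ) : Prop :=
  (a < 10 ∧ b < 10 ∧ a / 5 = b / 5 ∧ (b % 5 = (a + 1) % 5 ∨ a % 5 = (b + 1) % 5)) ∨
    (a = 0 ∧ b = 5) ∨ (a = 5 ∧ b = 0) ∨ (a = 7 ∧ b = 2) ∨ (a = 2 ∧ b = 7)

instance decT (a b : ℕ) : Decidable (T a b) := by unfold T; infer_instance

set_option maxRecDepth 100000 in
theorem T3' : ∀ a b : Fin 10, T a b → ∀ c : Fin 10, T b c → T c a → False := by decide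

set_option maxRecDepth 100000 in
theorem T4' : ∀ a b : Fin 10, T a b → ∀ c : Fin 10, T b c → ∀ d : Fin 10, T c d → T d a →
    a = c ∨ b = d := by decide

theorem T3 (a : ℕ) (ha : a < 10) (b : ℕ) (hb : b < 10) (h1 : T a b) (c : ℕ) (hc : c < 10)
    (h2 : T b c) (h3 : T c a) : False := T3' ⟨a, ha⟩ ⟨b, hb⟩ h1 ⟨c, hc⟩ h2 h3

theorem T4 (a : ℕ) (ha : a < 10) (b : ℕ) (hb : b < 10) (h1 : T a b) (c : ℕ) (hc : c < 10)
    (h2 : T b c) (d : ℕ) (hd : d < 10) (h3 : T c d) (h4 : T d a) : a = c ∨ b = d := by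
  rcases T4' ⟨a, ha⟩ ⟨b, hb⟩ h1 ⟨c, hc⟩ h2 ⟨d, hd⟩ h3 h4 with h | h
  · exact Or.inl (congrArg Fin.val h)
  · exact Or.inr (congrArg Fin.val h)

theorem T_lt {a b : ℕ} (h : T a b) : a < 10 ∧ b < 10 := by
  unfold T at h; omega

theorem hr_T {D : Dat} {i j : ℕ} (h : D.Hr i j) : T (D.kc i) (D.kc j) := by
  unfold T
  rcases h with h | h | h | h | h | h
  · obtain ⟨-, h1, h2, h3, h4⟩ := h
    exact Or.inl ⟨h1, h2, h3, Or.inl h4⟩
  · obtain ⟨-, h1, h2, h3, h4⟩ := h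
    exact Or.inl ⟨h2, h1, h3.symm, Or.inr h4⟩
  · exact Or.inr (Or.inl ⟨h.1, h.2.1⟩)
  · exact Or.inr (Or.inr (Or.inl ⟨h.2.1, h.1⟩))
  · exact Or.inr (Or.inr (Or.inr (Or.inl ⟨h.1, h.2.1⟩)))
  · exact Or.inr (Or.inr (Or.inr (Or.inr ⟨h.2.1, h.1⟩)))

/-- edges: either inside a 5-cycle, or an incidence between a point and a line -/
theorem hr_cases {D : Dat} {i j : ℕ} (h : D.Hr i j) :
    (D.kc i / 5 = D.kc j / 5 ∧ i % D.q ^ 2 = j % D.q ^ 2) ∨
    (D.kc i / 5 ≠ D.kc j / 5 ∧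
      ((D.kc i < 5 ∧ D.OnL (D.ca j) (D.cb j) (D.ca i) (D.cb i)) ∨
        (5 ≤ D.kc i ∧ D.OnL (D.ca i) (D.cb i) (D.ca j) (D.cb j)))) := by
  rcases h with h | h | h | h | h | h
  · exact Or.inl ⟨h.2.2.2.1, h.1⟩
  · exact Or.inl ⟨h.2.2.2.1.symm, h.1.symm⟩
  · refine Or.inr ⟨?_, Or.inl ⟨?_, h.2.2⟩⟩ <;> rw [h.1] <;> try rw [h.2.1]
    all_goals norm_num
  · refine Or.inr ⟨?_, Or.inr ⟨?_, h.2.2⟩⟩ <;> rw [h.2.1] <;> try rw [h.1]
    all_goals norm_num
  · refine Or.inr ⟨?_, Or.inr ⟨?_, h.2.2⟩⟩ <;> rw [h.1] <;> try rw [h.2.1]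
    all_goals norm_num
  · refine Or.inr ⟨?_, Or.inl ⟨?_, h.2.2⟩⟩ <;> rw [h.2.1] <;> try rw [h.1]
    all_goals norm_num

theorem core {q : ℕ} (hq : q.Prime) {a b a' b' x y x' y' : ℕ} (ha : a < q) (hb : b < q)
    (ha' : a' < q) (hb' : b' < q) (hx : x < q) (hy : y < q) (hx' : x' < q) (hy' : y' < q)
    (h1 : y % q = (a * x + b) % q) (h2 : y' % q = (a * x' + b) % q)
    (h3 : y % q = (a' * x + b') % q) (h4 : y' % q = (a' * x' + b') % q) :
    (x = x' ∧ y = y') ∨ (a = a' ∧ b = b') := by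
  have := Fact.mk hq
  have e1 : (y : ZMod q) = a * x + b := by
    exact_mod_cast (ZMod.natCast_eq_natCast_iff' _ _ q).2 h1
  have e2 : (y' : ZMod q) = a * x' + b := by
    exact_mod_cast (ZMod.natCast_eq_natCast_iff' _ _ q).2 h2
  have e3 : (y : ZMod q) = a' * x + b' := by
    exact_mod_cast (ZMod.natCast_eq_natCast_iff' _ _ q).2 h3
  have e4 : (y' : ZMod q) = a' * x' + b' := by
    exact_mod_cast (ZMod.natCast_eq_natCast_iff' _ _ q).2 h4
  have back : ∀ {u v : ℕ}, u < q → v < q → (u : ZMod q) = v → u = v := by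
    intro u v hu hv huv
    have h := (ZMod.natCast_eq_natCast_iff' _ _ q).1 huv
    rwa [Nat.mod_eq_of_lt hu, Nat.mod_eq_of_lt hv] at h
  have hp : ((a : ZMod q) - a') * ((x : ZMod q) - x') = 0 := by
    linear_combination (-1 : ZMod q) * e1 + e2 + e3 - e4
  rcases mul_eq_zero.1 hp with h | h
  · right
    have haa : (a : ZMod q) = a' := sub_eq_zero.1 h
    refine ⟨back ha ha' haa, back hb hb' ?_⟩
    linear_combination e3 - e1 - (x : ZMod q) * haa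
  · left
    have hxx : (x : ZMod q) = x' := sub_eq_zero.1 h
    refine ⟨back hx hx' hxx, back hy hy' ?_⟩
    linear_combination e1 - e2 + (a : ZMod q) * hxx

theorem ext_i {D : Dat} {i l : ℕ} (hk : D.kc i = D.kc l) (hm : i % D.q ^ 2 = l % D.q ^ 2) :
    i = l := by
  rw [← Nat.div_add_mod i (D.q ^ 2), ← Nat.div_add_mod l (D.q ^ 2), hm]
  unfold Dat.kc at hk
  rw [hk]

theorem mod_eq {D : Dat} {i l : ℕ} (ha : D.ca i = D.ca l) (hb : D.cb i = D.cb l) :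
    i % D.q ^ 2 = l % D.q ^ 2 := by
  unfold Dat.ca at ha
  unfold Dat.cb at hb
  have hd : D.q ∣ D.q ^ 2 := dvd_pow_self _ two_ne_zero
  rw [← Nat.div_add_mod (i % D.q ^ 2) D.q, ← Nat.div_add_mod (l % D.q ^ 2) D.q, ha,
    Nat.mod_mod_of_dvd i hd, Nat.mod_mod_of_dvd l hd, hb]

theorem ca_lt {D : Dat} (hq : 0 < D.q) (i : ℕ) : D.ca i < D.q := by
  unfold Dat.ca
  rw [Nat.div_lt_iff_lt_mul hq]
  have := Nat.mod_lt i (Nat.pow_pos hq : 0 < D.q ^ 2)
  rwa [pow_two] at this ⊢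

theorem cb_lt {D : Dat} (hq : 0 < D.q) (i : ℕ) : D.cb i < D.q := Nat.mod_lt _ hq

/-- two points on two lines -/
theorem pq {D : Dat} (hD : D.Ok) {P P' L L' : ℕ} (hP : D.kc P = D.kc P') (hL : D.kc L = D.kc L')
    (h1 : D.OnL (D.ca L) (D.cb L) (D.ca P) (D.cb P))
    (h2 : D.OnL (D.ca L) (D.cb L) (D.ca P') (D.cb P'))
    (h3 : D.OnL (D.ca L') (D.cb L') (D.ca P) (D.cb P))
    (h4 : D.OnL (D.ca L') (D.cb L') (D.ca P') (D.cb P')) : P = P' ∨ L = L' := by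
  have hq : 0 < D.q := hD.prime.pos
  rcases core hD.prime (ca_lt hq L) (cb_lt hq L) (ca_lt hq L') (cb_lt hq L') (ca_lt hq P)
    (cb_lt hq P) (ca_lt hq P') (cb_lt hq P') h1 h2 h3 h4 with h | h
  · exact Or.inl (ext_i hP (mod_eq h.1 h.2))
  · exact Or.inr (ext_i hL (mod_eq h.1 h.2))

theorem walk {D : Dat} (hD : D.Ok) {i j l p : ℕ} (hk : D.kc i = D.kc l) (h1 : D.Hr i j)
    (h2 : D.Hr j l) (h3 : D.Hr l p) (h4 : D.Hr p i) : i = l ∨ j = p := by
  have t1 := hr_T h1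
  have t4 := hr_T h4
  rcases hr_cases h1 with ⟨a1, b1⟩ | ⟨a1, b1⟩
  · rcases hr_cases h2 with ⟨a2, b2⟩ | ⟨a2, b2⟩
    · exact Or.inl (ext_i hk (b1.trans b2))
    · exact absurd (by rw [← a1, hk]) a2
  · rcases hr_cases h2 with ⟨a2, b2⟩ | ⟨a2, b2⟩
    · exact absurd (by rw [hk, a2]) a1
    · rcases hr_cases h4 with ⟨a4, b4⟩ | ⟨a4, b4⟩
      · rcases hr_cases h3 with ⟨a3, b3⟩ | ⟨a3, b3⟩
        · exact Or.inl (ext_i hk (b4.symm.trans b3.symm))
        · exact absurd (by rw [a4, hk]) a3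
      · rcases hr_cases h3 with ⟨a3, b3⟩ | ⟨a3, b3⟩
        · exact absurd (by rw [← a3, hk]) a4
        · have hjp : D.kc j = D.kc p := by
            have l1 := T_lt t1
            have l4 := T_lt t4
            unfold T at t1 t4
            omega
          have l1 := T_lt t1
          rcases b1 with ⟨c1, b1⟩ | ⟨c1, b1⟩
          · have hj5 : 5 ≤ D.kc j := by omega
            have hp5 : 5 ≤ D.kc p := by omega
            have hl5 : D.kc l < 5 := by omega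
            rcases b2 with ⟨c2, b2⟩ | ⟨c2, b2⟩
            · omega
            rcases b3 with ⟨c3, b3⟩ | ⟨c3, b3⟩
            swap
            · omega
            rcases b4 with ⟨c4, b4⟩ | ⟨c4, b4⟩
            · omega
            exact pq hD hk hjp b1 b2 b4 b3
          · have hj5 : D.kc j < 5 := by omega
            have hp5 : D.kc p < 5 := by omega
            have hl5 : 5 ≤ D.kc l := by omega
            rcases b2 with ⟨c2, b2⟩ | ⟨c2, b2⟩
            swap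
            · omega
            rcases b3 with ⟨c3, b3⟩ | ⟨c3, b3⟩
            · omega
            rcases b4 with ⟨c4, b4⟩ | ⟨c4, b4⟩
            swap
            · omega
            exact (pq hD hjp hk b1 b4 b2 b3).symm

theorem gir : GirStmt := by
  intro D hD
  refine ⟨?_, ?_⟩
  · intro i j l h1 h2 h3
    have t1 := hr_T h1
    have t2 := hr_T h2
    have t3 := hr_T h3
    exact T3 _ (T_lt t1).1 _ (T_lt t1).2 t1 _ (T_lt t2).2 t2 t3
  · intro i j l p h1 h2 h3 h4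
    have t1 := hr_T h1
    have t2 := hr_T h2
    have t3 := hr_T h3
    have t4 := hr_T h4
    rcases T4 _ (T_lt t1).1 _ (T_lt t1).2 t1 _ (T_lt t2).2 t2 _ (T_lt t3).2 t3 t4 with h | h
    · exact walk hD h h1 h2 h3 h4
    · exact (walk hD h h2 h3 h4 h1).symm.imp (fun e => e.symm) id

end Pool.Agent.C4F.H90
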