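import Pool.Agent.C4F.StmtsP

set_option autoImplicit false

namespace Pool.Agent.C4F.H90S

open Pool.Agent.C4F

variable {D : Dat}

theorem kc_add (hq : 0 < D.q) (i c : ℕ) : D.kc (i + D.q ^ 2 * c) = D.kc i + c := by
  unfold Dat.kc
  exact Nat.add_mul_div_left i c (Nat.pow_pos hq)

theorem ca_add (i c : ℕ) : D.ca (i + D.q ^ 2 * c) = D.ca i := by
  unfold Dat.ca
  rw [Nat.add_mul_mod_self_left]

theorem cb_add (i c : ℕ) : D.cb (i + D.q ^ 2 * c) = D.cb i := by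
  unfold Dat.cb
  rw [pow_two, mul_assoc, Nat.add_mul_mod_self_left]

theorem vs_congr {i i' : ℕ} (ha : D.ca i = D.ca i') (hb : D.cb i = D.cb i')
    (hk : (D.kc i < 5 ∧ D.kc i' < 5) ∨
      ((5 ≤ D.kc i ∧ D.kc i < 10) ∧ (5 ≤ D.kc i' ∧ D.kc i' < 10))) : D.VS i = D.VS i' := by
  have e1 : (D.kc i < 5) = (D.kc i' < 5) := propext (by omega)
  have e2 : (5 ≤ D.kc i) = (5 ≤ D.kc i') := propext (by omega)
  have e3 : (D.kc i < 10) = (D.kc i' < 10) := propext (by omega)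
  funext v
  unfold Dat.VS
  rw [ha, hb, e1, e2, e3]

theorem gt_congr {β : ℕ → ℕ → Bool} {i i' j j' x y : ℕ} (hi : D.VS i = D.VS i')
    (hj : D.VS j = D.VS j') (h : D.Gt β i x j y) : D.Gt β i' x j' y := by
  unfold Dat.Gt Dat.rk at h ⊢
  rw [← hi, ← hj]
  exact h

theorem agree (hE : EqbStmt) (hC : CpyStmt) (hD : D.Ok) {f : ℕ → ℕ} (hf : D.Cons f)
    {i j : ℕ} (hi : D.kc i = 0) (hj : D.kc j = 5)
    (hon : D.OnL (D.ca j) (D.cb j) (D.ca i) (D.cb i)) {v : ℕ} (hv : v < D.n)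
    (h1 : D.VS i v) (h2 : D.VS j v) :
    D.bt (f i) (D.rk i v) = D.bt (f j) (D.rk j v) := by
  have hq : 0 < D.q := hD.prime.pos
  have hq2 : 0 < D.q ^ 2 := Nat.pow_pos hq
  have li : i < D.q ^ 2 := by
    have h : i < D.q ^ 2 * (i / D.q ^ 2 + 1) := Nat.lt_mul_div_succ i hq2
    have hi' : i / D.q ^ 2 = 0 := hi
    rw [hi'] at h
    omega
  have lj : j < 6 * D.q ^ 2 := by
    have h : j < D.q ^ 2 * (j / D.q ^ 2 + 1) := Nat.lt_mul_div_succ j hq2
    have hj' : j / D.q ^ 2 = 5 := hj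
    rw [hj'] at h
    omega
  have hk := hD.hk
  have ki2 := kc_add (D := D) hq i 2
  have kj2 := kc_add (D := D) hq j 2
  rw [hi] at ki2
  rw [hj] at kj2
  have vi : D.VS (i + D.q ^ 2 * 2) = D.VS i :=
    vs_congr (ca_add i 2) (cb_add i 2) (Or.inl (by omega))
  have vj : D.VS (j + D.q ^ 2 * 2) = D.VS j :=
    vs_congr (ca_add j 2) (cb_add j 2) (Or.inr (by omega))
  have fi : f (i + D.q ^ 2 * 2) = f i := by
    refine hC D hD f hf _ (by omega) _ (by omega) (Nat.add_mul_mod_self_left _ _ _) ?_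
    rw [ki2, hi]
  have fj : f (j + D.q ^ 2 * 2) = f j := by
    refine hC D hD f hf _ (by omega) _ (by omega) (Nat.add_mul_mod_self_left _ _ _) ?_
    rw [kj2, hj]
  have g1 : ¬ D.Gt D.bt i (f i) j (f j) := fun hg =>
    hf.2 i (by omega) j (by omega) (Or.inr ⟨Or.inl ⟨hi, hj, hon⟩, hg⟩)
  have g2 : ¬ D.Gt D.bt j (f j) i (f i) := by
    intro hg
    refine hf.2 (j + D.q ^ 2 * 2) (by omega) (i + D.q ^ 2 * 2) (by omega)
      (Or.inr ⟨Or.inr ⟨kj2, ki2, ?_⟩, ?_⟩)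
    · rw [ca_add, cb_add, ca_add, cb_add]
      exact hon
    · rw [fi, fj]
      exact gt_congr vj.symm vi.symm hg
  exact hE D D.bt i (f i) j (f j) g1 g2 v hv h1 h2

theorem kp_lt (hD : D.Ok) : D.kp < D.q ^ 2 := by
  unfold Dat.kp Dat.h
  have h3 := hD.three
  rw [pow_two]
  exact Nat.mul_lt_mul_of_pos_right (by omega) (by omega)

theorem kp_pos (hD : D.Ok) : 0 < D.kp := by
  unfold Dat.kp Dat.h
  have h3 := hD.three
  exact Nat.mul_pos (by omega) (by omega)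

theorem small {e : ℕ} (he : e < D.q ^ 2) :
    D.kc e = 0 ∧ D.ca e = e / D.q ∧ D.cb e = e % D.q := by
  refine ⟨Nat.div_eq_of_lt he, ?_, rfl⟩
  unfold Dat.ca
  rw [Nat.mod_eq_of_lt he]

/-- the index of a group -/
theorem grp_idx (hD : D.Ok) {p : ℕ} (hp : p < D.kp) :
    D.kc p = 0 ∧ D.ca p < D.h ∧ D.ca p * D.q + D.cb p = p ∧ D.ca p = p / D.q ∧
      D.cb p = p % D.q := by
  have hlt := kp_lt hD
  obtain ⟨h1, h2, h3⟩ := small (hp.trans hlt)
  have hq : 0 < D.q := hD.prime.pos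
  refine ⟨h1, ?_, ?_, h2, h3⟩
  · rw [h2, Nat.div_lt_iff_lt_mul hq]
    exact hp
  · rw [h2, h3]
    exact Nat.div_add_mod' p D.q

/-- the index of a relay -/
theorem rel_idx (hD : D.Ok) {r : ℕ} (hr : r < D.kp) :
    D.kc (D.h * D.q + r) = 0 ∧ D.ca (D.h * D.q + r) = D.h + r / D.q ∧
      D.cb (D.h * D.q + r) = r % D.q ∧ r / D.q < D.h := by
  have hq : 0 < D.q := hD.prime.pos
  have h3 := hD.three
  have hr' : r < D.h * D.q := hr
  have hlt : D.h * D.q + r < D.q ^ 2 := by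
    have h2h : D.h + D.h < D.q := by
      unfold Dat.h; omega
    calc D.h * D.q + r < D.h * D.q + D.h * D.q := by omega
      _ = (D.h + D.h) * D.q := by ring
      _ ≤ D.q * D.q := Nat.mul_le_mul_right _ h2h.le
      _ = D.q ^ 2 := by ring
  obtain ⟨e1, e2, e3⟩ := small hlt
  refine ⟨e1, ?_, ?_, ?_⟩
  · rw [e2, add_comm (D.h * D.q) r, Nat.add_mul_div_right _ _ hq, add_comm]
  · rw [e3, add_comm (D.h * D.q) r, Nat.add_mul_mod_self_right]
  · rw [Nat.div_lt_iff_lt_mul hq]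
    exact hr'

/-- the index of a line -/
theorem line_idx (hD : D.Ok) {a b : ℕ} (ha : a < D.q) (hb : b < D.q) :
    D.kc (a * D.q + b + D.q ^ 2 * 5) = 5 ∧ D.ca (a * D.q + b + D.q ^ 2 * 5) = a ∧
      D.cb (a * D.q + b + D.q ^ 2 * 5) = b := by
  have hq : 0 < D.q := hD.prime.pos
  have hlt : a * D.q + b < D.q ^ 2 := by
    calc a * D.q + b < a * D.q + D.q := by omega
      _ = (a + 1) * D.q := by ring
      _ ≤ D.q * D.q := Nat.mul_le_mul_right _ ha
      _ = D.q ^ 2 := by ring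
  obtain ⟨e1, e2, e3⟩ := small hlt
  rw [kc_add hq, ca_add, cb_add, e1, e2, e3]
  refine ⟨rfl, ?_, ?_⟩
  · rw [add_comm (a * D.q) b, Nat.add_mul_div_right _ _ hq, Nat.div_eq_of_lt hb, zero_add]
  · rw [add_comm (a * D.q) b, Nat.add_mul_mod_self_right, Nat.mod_eq_of_lt hb]

theorem grp_lt (hD : D.Ok) (s : ℕ) : D.grp s < D.kp := Nat.mod_lt _ (kp_pos hD)

theorem vs_grp (hD : D.Ok) {s v : ℕ} (hs : s < 3 * D.m) (hv : D.vr s = v) :
    D.VS (D.grp s) v := by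
  obtain ⟨h1, h2, h3, -, -⟩ := grp_idx hD (grp_lt hD s)
  refine Or.inl ⟨by rw [h1]; norm_num, h2, ?_⟩
  rw [h3]
  exact ⟨s, hs, rfl, hv⟩

theorem step (hE : EqbStmt) (hI : IncStmt) (hC : CpyStmt) (hD : D.Ok) {f : ℕ → ℕ}
    (hf : D.Cons f) {s t v : ℕ} (hst : D.Lk s t) (hv : D.vr s = v) :
    D.bt (f (D.grp s)) (D.rk (D.grp s) v) = D.bt (f (D.grp t)) (D.rk (D.grp t) v) := by
  have ht : t < 3 * D.m := hst.2.1
  have hs : s < 3 * D.m := hst.1.trans ht
  have hvt : D.vr t = v := by rw [← hst.2.2.1, hv]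
  have hvn : v < D.n := hv ▸ hD.vlt s hs
  have hr : D.rt s t < D.kp := Nat.mod_lt _ (kp_pos hD)
  have hVR : D.VR (D.rt s t) v := ⟨s, hs, t, ht, hst, rfl, hv⟩
  obtain ⟨ka, caa, cba, hlt⟩ := rel_idx hD hr
  have hvr : D.VS (D.h * D.q + D.rt s t) v := by
    refine Or.inr (Or.inl ⟨by rw [ka]; norm_num, by rw [caa]; exact Nat.le_add_right _ _,
      by rw [caa]; omega, ?_⟩)
    have e : (D.ca (D.h * D.q + D.rt s t) - D.h) * D.q + D.cb (D.h * D.q + D.rt s t) =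
        D.rt s t := by
      rw [caa, cba, Nat.add_sub_cancel_left]
      exact Nat.div_add_mod' _ _
    rw [e]
    exact hVR
  -- a line through a group and the relay
  have main : ∀ p < D.kp, D.VS p v → (∀ a b, D.OnR a b (D.rt s t) → D.OnP a b p → D.VL a b v) →
      D.bt (f p) (D.rk p v) =
        D.bt (f (D.h * D.q + D.rt s t)) (D.rk (D.h * D.q + D.rt s t) v) := by
    intro p hp hvp hvl
    obtain ⟨a, ha, b, hb, hon, hor⟩ := hI D hD p hp (D.rt s t) hr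
    obtain ⟨kl, cal, cbl⟩ := line_idx hD ha hb
    obtain ⟨kp0, -, -, cap, cbp⟩ := grp_idx hD hp
    have hvL : D.VS (a * D.q + b + D.q ^ 2 * 5) v := by
      refine Or.inr (Or.inr ⟨by rw [kl], by rw [kl]; norm_num, ?_⟩)
      rw [cal, cbl]
      exact hvl a b hor hon
    have h1 := agree hE hC hD hf kp0 kl (by rw [cal, cbl, cap, cbp]; exact hon) hvn hvp hvL
    have h2 := agree hE hC hD hf ka kl (by rw [cal, cbl, caa, cba]; exact hor) hvn hvr hvL
    exact h1.trans h2.symm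
  have m1 := main (D.grp s) (grp_lt hD s) (vs_grp hD hs hv)
    (fun a b h1 h2 => ⟨s, hs, t, ht, hst, hv, h1, Or.inl h2⟩)
  have m2 := main (D.grp t) (grp_lt hD t) (vs_grp hD ht hvt)
    (fun a b h1 h2 => ⟨s, hs, t, ht, hst, hv, h1, Or.inr h2⟩)
  exact m1.trans m2.symm

theorem chain (hE : EqbStmt) (hI : IncStmt) (hC : CpyStmt) (hD : D.Ok) {f : ℕ → ℕ}
    (hf : D.Cons f) (v : ℕ) : ∀ d s t : ℕ, t - s ≤ d → s < t → t < 3 * D.m → D.vr s = v →
    D.vr t = v →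
    D.bt (f (D.grp s)) (D.rk (D.grp s) v) = D.bt (f (D.grp t)) (D.rk (D.grp t) v) := by
  intro d
  induction d with
  | zero => intro s t h1 h2; omega
  | succ d ih =>
    intro s t h1 h2 h3 h4 h5
    have hex : ∃ u, s < u ∧ D.vr u = v := ⟨t, h2, h5⟩
    classical
    have hu := Nat.find_spec hex
    have hmin : ∀ w, s < w → w < Nat.find hex → D.vr w ≠ v := fun w hw1 hw2 hw3 =>
      Nat.find_min hex hw2 ⟨hw1, hw3⟩
    have hle : Nat.find hex ≤ t := Nat.find_min' hex ⟨h2, h5⟩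
    have hlk : D.Lk s (Nat.find hex) := by
      refine ⟨hu.1, by omega, by rw [h4, hu.2], fun w hw1 hw2 => ?_⟩
      rw [h4]
      exact hmin w hw1 hw2
    have e1 := step hE hI hC hD hf hlk h4
    rcases Nat.lt_or_ge (Nat.find hex) t with hlt | hge
    · exact e1.trans (ih _ t (by omega) hlt h3 hu.2 h5)
    · have : Nat.find hex = t := le_antisymm hle hge
      rw [this] at e1
      exact e1

theorem wd (hE : EqbStmt) (hI : IncStmt) (hC : CpyStmt) (hD : D.Ok) {f : ℕ → ℕ}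
    (hf : D.Cons f) {s t v : ℕ} (hs : s < 3 * D.m) (ht : t < 3 * D.m) (h4 : D.vr s = v)
    (h5 : D.vr t = v) :
    D.bt (f (D.grp s)) (D.rk (D.grp s) v) = D.bt (f (D.grp t)) (D.rk (D.grp t) v) := by
  rcases lt_trichotomy s t with h | h | h
  · exact chain hE hI hC hD hf v _ s t le_rfl h ht h4 h5
  · rw [h]
  · exact (chain hE hI hC hD hf v _ t s le_rfl h hs h5 h4).symm

theorem snd (hE : EqbStmt) (hI : IncStmt) (hC : CpyStmt) : SndStmt := by
  classical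
  intro D hD hex
  obtain ⟨f, hf⟩ := hex
  refine ⟨fun v => if h : ∃ s, s < 3 * D.m ∧ D.vr s = v then
    D.bt (f (D.grp h.choose)) (D.rk (D.grp h.choose) v) else false, ?_⟩
  intro c hc
  have hkp := kp_pos hD
  have hp : c % D.kp < D.kp := Nat.mod_lt _ hkp
  obtain ⟨h1, h2, h3, -, -⟩ := grp_idx hD hp
  have hlt : c % D.kp < D.k := by
    have a1 := kp_lt hD
    have a2 := hD.hk
    omega
  have hbad := (hf.1 (c % D.kp) hlt).2
  have hl : ∃ l < 3, D.bt (f (c % D.kp)) (D.rk (c % D.kp) (D.vr (3 * c + l))) =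
      D.sg (3 * c + l) := by
    by_contra hcon
    apply hbad
    refine ⟨h1, h2, c, hc, h3.symm, fun l hl he => hcon ⟨l, hl, he⟩⟩
  obtain ⟨l, hl3, hl⟩ := hl
  refine ⟨l, hl3, ?_⟩
  have hs : 3 * c + l < 3 * D.m := by omega
  have hg : D.grp (3 * c + l) = c % D.kp := by
    unfold Dat.grp
    have : (3 * c + l) / 3 = c := by omega
    rw [this]
  have hexs : ∃ s, s < 3 * D.m ∧ D.vr s = D.vr (3 * c + l) := ⟨_, hs, rfl⟩
  change (if h : ∃ s, s < 3 * D.m ∧ D.vr s = D.vr (3 * c + l) then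
    D.bt (f (D.grp h.choose)) (D.rk (D.grp h.choose) (D.vr (3 * c + l))) else false) = _
  rw [dif_pos hexs, ← hl, ← hg]
  exact wd hE hI hC hD hf hexs.choose_spec.1 hs hexs.choose_spec.2 rfl

end Pool.Agent.C4F.H90S
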